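import Mathlib

namespace Pool.Agent.Results.MP_3f84da_ag.Toric

open MvPolynomial Classical

variable {n : ℕ}

/-- indices of the variables `σ_ij`, `i ≤ j` -/
abbrev Idx (n : ℕ) := {p : Fin n × Fin n // p.1 ≤ p.2}

/-- target ring: variables `a_i` (`inl i`) and `λ_kl` (`inr (k,l)`) -/
abbrev Tgt (n : ℕ) := MvPolynomial (Fin n ⊕ Fin n × Fin n) ℂ

/-- simple treks between `i` and `j`, as vertex lists from `i` to `j`: no repeated vertex,
consecutive vertices joined by an edge, no collider -/
def treks (E : Fin n → Fin n → Prop) (i j : Fin n) : Set (List (Fin n)) :=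
  {l | l.head? = some i ∧ l.getLast? = some j ∧ l.Nodup ∧
    (∀ a b, [a, b] <:+: l → E a b ∨ E b a) ∧ ∀ a b c, [a, b, c] <:+: l → ¬ (E a b ∧ E c b)}

/-- the edge `k → m` of the graph lies on the path `l` -/
def OnPath (E : Fin n → Fin n → Prop) (l : List (Fin n)) (k m : Fin n) : Prop :=
  E k m ∧ ([k, m] <:+: l ∨ [m, k] <:+: l)

/-- trek monomial: `a_top` (top = the vertex of the trek into which no trek edge points) times
the product of `λ_km` over the trek edges -/
noncomputable def wt (E : Fin n → Fin n → Prop) (l : List (Fin n)) : Tgt n :=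
  (∏ v with v ∈ l ∧ ∀ k, ¬ OnPath E l k v, X (Sum.inl v)) *
    ∏ e : Fin n × Fin n with OnPath E l e.1 e.2, X (Sum.inr e)

/-- treks of minimal length -/
def shortest (E : Fin n → Fin n → Prop) (i j : Fin n) : Set (List (Fin n)) :=
  {l ∈ treks E i j | ∀ l' ∈ treks E i j, l.length ≤ l'.length}

/-- the homomorphism sending `σ_ij` to the sum of the trek monomials over `T i j` -/
noncomputable def hom (E : Fin n → Fin n → Prop) (T : Fin n → Fin n → Set (List (Fin n))) :
    MvPolynomial (Idx n) ℂ →ₐ[ℂ] Tgt n :=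
  aeval fun s => ∑ᶠ l ∈ T s.1.1 s.1.2, wt E l

/-- toric: kernel of a homomorphism sending each variable to a monomial or to `0` -/
def IsToric (I : Ideal (MvPolynomial (Idx n) ℂ)) : Prop :=
  ∃ (τ : Type) (f : Idx n → MvPolynomial τ ℂ), (∀ s, f s = 0 ∨ ∃ d, f s = monomial d 1) ∧
    I = RingHom.ker (aeval f : MvPolynomial (Idx n) ℂ →ₐ[ℂ] MvPolynomial τ ℂ)

section
variable {E : Fin n → Fin n → Prop}

lemma treks_fin (i j : Fin n) : (treks E i j).Finite := by
  exact (List.finite_length_le _ (Fintype.card (Fin n))).subset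
    fun l hl => hl.2.2.1.length_le_card

lemma rev_mem {i j : Fin n} {l : List (Fin n)} (h : l ∈ treks E i j) : l.reverse ∈ treks E j i := by
  obtain ⟨h1, h2, h3, h4, h5⟩ := h
  refine ⟨by simpa using h2, by simpa using h1, List.nodup_reverse.2 h3, ?_, ?_⟩
  · intro a b hab
    have : [b, a] <:+: l := by
      rw [← List.reverse_infix] ; simpa using hab
    exact (h4 _ _ this).symm
  · intro a b c hab
    have : [c, b, a] <:+: l := by
      rw [← List.reverse_infix] ; simpa using hab
    exact fun h => h5 _ _ _ this h.symm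

lemma onPath_rev (l : List (Fin n)) (k m : Fin n) : OnPath E l.reverse k m ↔ OnPath E l k m := by
  unfold OnPath
  have h : ∀ a b : Fin n, [a, b] <:+: l.reverse ↔ [b, a] <:+: l := fun a b => by
    rw [← List.reverse_infix]; simp
  rw [h, h, or_comm]

lemma wt_rev (l : List (Fin n)) : wt E l.reverse = wt E l := by
  unfold wt
  simp only [onPath_rev, List.mem_reverse]

lemma pair_infix_cons {a b j p : Fin n} {l : List (Fin n)} :
    [a, b] <:+: j :: p :: l ↔ (a = j ∧ b = p) ∨ [a, b] <:+: p :: l := by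
  rw [List.infix_cons_iff]; simp [List.cons_prefix_cons]

lemma not_pair_single {a b j : Fin n} : ¬ [a, b] <:+: [j] := fun h => by
  have := h.length_le; simp at this

lemma wt_single (i : Fin n) : wt E [i] = X (Sum.inl i) := by
  unfold wt
  have h : ∀ k m, ¬ OnPath E [i] k m := fun k m h => h.2.elim not_pair_single not_pair_single
  simp [h, Finset.filter_eq']

lemma wt_cons (hE : ∀ a b, E a b → a < b) {j p : Fin n} {l : List (Fin n)} (hj : j ∉ p :: l)
    (hp : E p j) : wt E (j :: p :: l) = wt E (p :: l) * X (Sum.inr (p, j)) := by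
  have h1 : ∀ k m, OnPath E (j :: p :: l) k m ↔ (k = p ∧ m = j) ∨ OnPath E (p :: l) k m := by
    intro k m
    unfold OnPath
    rw [pair_infix_cons, pair_infix_cons]
    constructor
    · rintro ⟨h, (⟨rfl, rfl⟩ | h') | (⟨rfl, rfl⟩ | h')⟩
      · exact absurd (hE _ _ h) (hE _ _ hp).not_gt
      · exact Or.inr ⟨h, Or.inl h'⟩
      · exact Or.inl ⟨rfl, rfl⟩
      · exact Or.inr ⟨h, Or.inr h'⟩
    · rintro (⟨rfl, rfl⟩ | ⟨h, h' | h'⟩)
      · exact ⟨hp, Or.inr (Or.inl ⟨rfl, rfl⟩)⟩
      · exact ⟨h, Or.inl (Or.inr h')⟩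
      · exact ⟨h, Or.inr (Or.inr h')⟩
  have h2 : ¬ OnPath E (p :: l) p j := fun h =>
    hj (h.2.elim (fun h => h.subset (by simp)) (fun h => h.subset (by simp)))
  unfold wt
  have e1 : (Finset.univ.filter fun v => v ∈ j :: p :: l ∧ ∀ k, ¬ OnPath E (j :: p :: l) k v) =
      Finset.univ.filter fun v => v ∈ p :: l ∧ ∀ k, ¬ OnPath E (p :: l) k v := by
    ext v
    simp only [Finset.mem_filter, Finset.mem_univ, true_and, h1]
    constructor
    · rintro ⟨hv, h⟩
      have hvj : v ≠ j := fun e => h p (Or.inl ⟨rfl, e⟩)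
      exact ⟨(List.mem_cons.1 hv).resolve_left hvj, fun k hk => h k (Or.inr hk)⟩
    · rintro ⟨hv, h⟩
      refine ⟨List.mem_cons_of_mem _ hv, fun k hk => hk.elim (fun hk => hj (hk.2 ▸ hv)) (h k)⟩
  have e2 : (Finset.univ.filter fun e : Fin n × Fin n => OnPath E (j :: p :: l) e.1 e.2) =
      insert (p, j) (Finset.univ.filter fun e : Fin n × Fin n => OnPath E (p :: l) e.1 e.2) := by
    ext ⟨k, m⟩
    simp [h1]
  rw [e1, e2, Finset.prod_insert (by simpa using h2)]
  ring

lemma tail_mem {j p i : Fin n} {l : List (Fin n)} (h : j :: p :: l ∈ treks E j i) :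
    p :: l ∈ treks E p i := by
  obtain ⟨-, h2, h3, h4, h5⟩ := h
  exact ⟨rfl, by simpa using h2, h3.of_cons, fun a b hab => h4 a b (hab.trans (List.suffix_cons _ _).isInfix),
    fun a b c hab => h5 a b c (hab.trans (List.suffix_cons _ _).isInfix)⟩

lemma treks_self (i : Fin n) : treks E i i = {[i]} := by
  ext l
  constructor
  · rintro ⟨h1, h2, h3, -, -⟩
    match l, h1, h2, h3 with
    | [a], h1, _, _ => simpa using h1
    | a :: b :: l, h1, h2, h3 =>
      have ha : a = i := by simpa using h1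
      have : i ∈ b :: l := List.mem_of_getLast? (by simpa using h2)
      exact absurd (ha ▸ this) (List.nodup_cons.1 h3).1
  · rintro rfl
    refine ⟨rfl, rfl, by simp, fun a b h => absurd h not_pair_single, fun a b c h => ?_⟩
    have := h.length_le; simp at this

/-- once a trek goes down an arrow it keeps going down -/
lemma down (hE : ∀ a b, E a b → a < b) : ∀ (l : List (Fin n)) (j p i : Fin n),
    j :: p :: l ∈ treks E j i → E j p → ∀ v ∈ p :: l, v ≤ i
  | [], j, p, i, h, _ => by
    have : p = i := by simpa using h.2.1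
    simp [this]
  | q :: l, j, p, i, h, hjp => by
    have ht := tail_mem h
    have hpq : E p q := (ht.2.2.2.1 p q (List.prefix_append [p, q] l).isInfix).resolve_right
      fun h' => h.2.2.2.2 j p q (List.prefix_append [j, p, q] l).isInfix ⟨hjp, h'⟩
    have := down hE l p q i ht hpq
    intro v hv
    rcases List.mem_cons.1 hv with rfl | hv
    · exact (hE _ _ hpq).le.trans (this q (by simp))
    · exact this v hv

lemma le_max_of_mem (hE : ∀ a b, E a b → a < b) : ∀ (l : List (Fin n)) (j i : Fin n),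
    l ∈ treks E j i → ∀ v ∈ l, v ≤ max j i
  | [], _, _, h => by simp
  | [a], j, i, h => by
    have : a = j := by simpa using h.1
    simp [this]
  | a :: p :: l, j, i, h => by
    obtain rfl : a = j := by simpa using h.1
    intro v hv
    rcases List.mem_cons.1 hv with rfl | hv
    · exact le_max_left _ _
    rcases h.2.2.2.1 a p (List.prefix_append [a, p] l).isInfix with h' | h'
    · exact (down hE l a p i h h' v hv).trans (le_max_right _ _)
    · exact (le_max_of_mem hE (p :: l) p i (tail_mem h) v hv).trans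
        (max_le_max (hE _ _ h').le le_rfl)

lemma cons_mem (hE : ∀ a b, E a b → a < b) {i j p : Fin n} (hij : i < j) (hp : E p j)
    {l : List (Fin n)} (h : l ∈ treks E p i) : j :: l ∈ treks E j i ∧
      wt E (j :: l) = wt E l * X (Sum.inr (p, j)) := by
  have hj : j ∉ l := fun hj =>
    (max_lt (hE _ _ hp) hij).not_ge (le_max_of_mem hE l p i h j hj)
  match l, h, hj with
  | [], h, _ => simpa using h.1
  | a :: l, h, hj =>
    obtain rfl : a = p := by simpa using h.1
    refine ⟨⟨rfl, by simpa using h.2.1, List.nodup_cons.2 ⟨hj, h.2.2.1⟩, ?_, ?_⟩,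
      wt_cons hE hj hp⟩
    · intro b c hbc
      rcases pair_infix_cons.1 hbc with ⟨rfl, rfl⟩ | h'
      · exact Or.inr hp
      · exact h.2.2.2.1 _ _ h'
    · intro b c d hb
      rcases List.infix_cons_iff.1 hb with h' | h'
      · simp only [List.cons_prefix_cons] at h'
        obtain ⟨rfl, rfl, -⟩ := h'
        exact fun h => (hE _ _ hp).not_gt (hE _ _ h.1)
      · exact h.2.2.2.2 _ _ _ h'

lemma exists_cons (hE : ∀ a b, E a b → a < b) {i j : Fin n} (hij : i < j)
    {l : List (Fin n)} (h : l ∈ treks E j i) : ∃ p l', E p j ∧ l' ∈ treks E p i ∧ l = j :: l' := by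
  match l, h with
  | [], h => simpa using h.1
  | [a], h =>
    have h1 : a = j := by simpa using h.1
    have h2 : a = i := by simpa using h.2.1
    exact absurd (h2.symm.trans h1) hij.ne
  | a :: p :: l, h =>
    obtain rfl : a = j := by simpa using h.1
    refine ⟨p, p :: l, ?_, tail_mem h, rfl⟩
    refine (h.2.2.2.1 a p (List.prefix_append [a, p] l).isInfix).resolve_left fun h' => ?_
    exact (hij.trans (hE _ _ h')).not_ge (down hE l a p i h h' p (by simp))

/-- full trek sum -/
noncomputable def W (E : Fin n → Fin n → Prop) (i j : Fin n) : Tgt n :=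
  ∑ l ∈ (treks_fin (E := E) i j).toFinset, wt E l

lemma W_symm (i j : Fin n) : W E i j = W E j i := by
  unfold W
  refine Finset.sum_bij' (fun l _ => l.reverse) (fun l _ => l.reverse) ?_ ?_ ?_ ?_ ?_
  · intro l hl; simpa using rev_mem (by simpa using hl)
  · intro l hl; simpa using rev_mem (by simpa using hl)
  · simp
  · simp
  · intro l _; rw [wt_rev]

lemma W_self (i : Fin n) : W E i i = X (Sum.inl i) := by
  unfold W
  simp [treks_self, wt_single]

lemma W_rec (hE : ∀ a b, E a b → a < b) {i j : Fin n} (hij : i < j) :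
    W E i j = ∑ p with E p j, W E i p * X (Sum.inr (p, j)) := by
  rw [W_symm]
  simp_rw [W_symm i]
  unfold W
  simp_rw [Finset.sum_mul]
  rw [Finset.sum_sigma']
  symm
  refine Finset.sum_bij (fun x _ => j :: x.2) ?_ ?_ ?_ ?_
  · rintro ⟨p, l⟩ h
    simp only [Finset.mem_sigma, Finset.mem_filter, Set.Finite.mem_toFinset] at h ⊢
    exact (cons_mem hE hij h.1.2 h.2).1
  · rintro ⟨p, l⟩ h ⟨q, l'⟩ h' e
    simp only [Finset.mem_sigma, Finset.mem_filter, Set.Finite.mem_toFinset] at h h'
    obtain rfl : l = l' := by simpa using e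
    obtain rfl : p = q := Option.some.inj (h.2.1.symm.trans h'.2.1)
    rfl
  · intro l hl
    obtain ⟨p, l', h1, h2, rfl⟩ := exists_cons hE hij (by simpa using hl)
    exact ⟨⟨p, l'⟩, by simp [h1, h2], rfl⟩
  · rintro ⟨p, l⟩ h
    simp only [Finset.mem_sigma, Finset.mem_filter, Set.Finite.mem_toFinset] at h ⊢
    exact (cons_mem hE hij h.1.2 h.2).2.symm

lemma sym_ind (P : Fin n → Fin n → Prop) (hs : ∀ i j, P i j → P j i) (h0 : ∀ i, P i i)
    (h1 : ∀ i j, i < j → (∀ k m, k < j → m < j → P k m) → P i j) : ∀ i j, P i j := by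
  have key : ∀ j i, i ≤ j → P i j := by
    intro j
    induction j using WellFoundedLT.induction with
    | ind j ih =>
      intro i hi
      rcases hi.eq_or_lt with rfl | hi
      · exact h0 _
      · refine h1 i j hi fun k m hk hm => ?_
        rcases le_total k m with h | h
        · exact ih m hm k h
        · exact hs _ _ (ih k hk m h)
  intro i j
  rcases le_total i j with h | h
  · exact key _ _ h
  · exact hs _ _ (key _ _ h)

/-- evaluation killing the edges at the vertices in `B` -/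
noncomputable def ev (B : Fin n → Prop) : Tgt n →ₐ[ℂ] ℂ :=
  aeval (Sum.elim (fun _ => 1) fun e => if B e.1 ∨ B e.2 then 0 else 1)

lemma ev_wt (B : Fin n → Prop) (l : List (Fin n)) :
    ev B (wt E l) = if ∃ k m, OnPath E l k m ∧ (B k ∨ B m) then 0 else 1 := by
  unfold wt ev
  simp only [map_mul, map_prod, aeval_X, Sum.elim_inl, Sum.elim_inr, Finset.prod_const_one, one_mul]
  split_ifs with h
  · obtain ⟨k, m, h1, h2⟩ := h
    exact Finset.prod_eq_zero (i := (k, m)) (by simpa using h1) (by simp only [h2, if_true])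
  · refine Finset.prod_eq_one fun e he => if_neg fun h2 => h ⟨e.1, e.2, by simpa using he, h2⟩

lemma ev_wt_zero {B : Fin n → Prop} {p i : Fin n} (hB : B p) (hpi : p ≠ i) {l : List (Fin n)}
    (h : l ∈ treks E p i) : ev B (wt E l) = 0 := by
  rw [ev_wt, if_pos]
  match l, h with
  | [], h => simpa using h.1
  | [a], h =>
    have h1 : a = p := by simpa using h.1
    have h2 : a = i := by simpa using h.2.1
    exact absurd (h1.symm.trans h2) hpi
  | a :: q :: l, h =>
    obtain rfl : a = p := by simpa using h.1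
    have := (List.prefix_append [a, q] l).isInfix
    rcases h.2.2.2.1 a q this with h' | h'
    · exact ⟨a, q, ⟨h', Or.inl this⟩, Or.inl hB⟩
    · exact ⟨q, a, ⟨h', Or.inr this⟩, Or.inr hB⟩

open ComplexOrder in
lemma ev_W_zero {B : Fin n → Prop} {i j : Fin n} (h : ev B (W E i j) = 0) {l : List (Fin n)}
    (hl : l ∈ treks E i j) : ∃ v ∈ l, B v := by
  unfold W at h
  rw [map_sum, Finset.sum_eq_zero_iff_of_nonneg] at h
  · have := h l (by simpa using hl)
    rw [ev_wt] at this
    split_ifs at this with h'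
    · obtain ⟨k, m, ⟨-, h1⟩, h2⟩ := h'
      have : k ∈ l ∧ m ∈ l := h1.elim (fun h => ⟨h.subset (by simp), h.subset (by simp)⟩)
        (fun h => ⟨h.subset (by simp), h.subset (by simp)⟩)
      exact h2.elim (fun h => ⟨k, this.1, h⟩) fun h => ⟨m, this.2, h⟩
    · simp at this
  · intro l _
    rw [ev_wt]; split_ifs <;> simp

/-- shortest trek sum -/
noncomputable def S (E : Fin n → Fin n → Prop) (i j : Fin n) : Tgt n :=
  ∑ᶠ l ∈ shortest E i j, wt E l

lemma sh_rev {i j : Fin n} {l : List (Fin n)} (h : l ∈ shortest E i j) :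
    l.reverse ∈ shortest E j i :=
  ⟨rev_mem h.1, fun l' h' => by simpa using h.2 _ (rev_mem h')⟩

lemma sh_symm (i j : Fin n) : shortest E j i = List.reverse '' shortest E i j := by
  ext l
  exact ⟨fun h => ⟨_, sh_rev h, by simp⟩, by rintro ⟨l, h, rfl⟩; exact sh_rev h⟩

lemma S_symm (i j : Fin n) : S E i j = S E j i := by
  unfold S
  rw [sh_symm i j, finsum_mem_image List.reverse_injective.injOn]
  simp only [wt_rev]

lemma sh_self (i : Fin n) : shortest E i i = {[i]} := by
  ext l; simp +contextual [shortest, treks_self]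

lemma S_self (i : Fin n) : S E i i = X (Sum.inl i) := by
  simp [S, sh_self, wt_single]

lemma sh_nonempty {i j : Fin n} (h : (treks E i j).Nonempty) : (shortest E i j).Nonempty := by
  obtain ⟨l, hl, h'⟩ := Set.exists_min_image _ List.length (treks_fin i j) h
  exact ⟨l, hl, h'⟩

lemma sh_via (hE : ∀ a b, E a b → a < b) {i j p : Fin n} (hij : i < j) (hp : E p j)
    (h : ∀ l ∈ treks E j i, p ∈ l) : shortest E j i = (j :: ·) '' shortest E p i := by
  have key : ∀ l ∈ treks E j i, ∃ a l₁ l₂, l = a :: (l₁ ++ l₂) ∧ l₂ ∈ treks E p i := by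
    intro l hl
    obtain ⟨l₁, l₂, rfl⟩ := List.append_of_mem (h l hl)
    have hs : p :: l₂ <:+: l₁ ++ p :: l₂ := (List.suffix_append _ _).isInfix
    have h2 : p :: l₂ ∈ treks E p i := ⟨rfl, by simpa using hl.2.1, hl.2.2.1.sublist hs.sublist,
      fun a b hab => hl.2.2.2.1 _ _ (hab.trans hs), fun a b c hab => hl.2.2.2.2 _ _ _ (hab.trans hs)⟩
    match l₁, hl with
    | [], hl => exact absurd (by simpa using hl.1) (hE _ _ hp).ne
    | a :: l₁, _ => exact ⟨a, l₁, _, rfl, h2⟩
  ext l
  constructor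
  · intro hl
    obtain ⟨a, l₁, l₂, rfl, h2⟩ := key l hl.1
    obtain rfl : a = j := by simpa using hl.1.1
    have h3 := hl.2 _ (cons_mem hE hij hp h2).1
    obtain rfl : l₁ = [] := by
      simpa using h3
    refine ⟨l₂, ⟨h2, fun l' h' => ?_⟩, rfl⟩
    simpa using hl.2 _ (cons_mem hE hij hp h').1
  · rintro ⟨l, hl, rfl⟩
    refine ⟨(cons_mem hE hij hp hl.1).1, fun l' h' => ?_⟩
    obtain ⟨a, l₁, l₂, rfl, h2⟩ := key l' h'
    have := hl.2 _ h2
    simp; omega

lemma S_via (hE : ∀ a b, E a b → a < b) {i j p : Fin n} (hij : i < j) (hp : E p j)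
    (h : ∀ l ∈ treks E j i, p ∈ l) : S E i j = S E i p * X (Sum.inr (p, j)) := by
  rw [S_symm i j, S_symm i p]
  unfold S
  have hf : (shortest E p i).Finite := (treks_fin p i).subset fun l hl => hl.1
  rw [sh_via hE hij hp h, finsum_mem_image (List.cons_injective.injOn),
    finsum_mem_eq_finite_toFinset_sum _ hf, finsum_mem_eq_finite_toFinset_sum _ hf, Finset.sum_mul]
  exact Finset.sum_congr rfl fun l hl => (cons_mem hE hij hp (hf.mem_toFinset.1 hl).1).2

lemma det_ne (M : Fin n → Fin n → Tgt n) (h0 : ∀ i, M i i = X (Sum.inl i))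
    (h1 : ∀ i j, i ≠ j → ev (fun _ => True) (M i j) = 0) (P : Type) [Fintype P] [DecidableEq P]
    (e : P → Fin n) (he : e.Injective) : (Matrix.of fun a b => M (e a) (e b)).det ≠ 0 := by
  intro h
  have := congrArg (ev fun _ => True) h
  rw [map_zero, AlgHom.map_det] at this
  have h2 : (ev fun _ => True).mapMatrix (Matrix.of fun a b => M (e a) (e b)) = 1 := by
    ext a b
    by_cases hab : a = b
    · subst hab; simp [h0, ev]
    · simp [h1 _ _ (he.ne hab), Matrix.one_apply_ne hab]
  rw [h2] at this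
  simp at this

lemma ev_W {B : Fin n → Prop} {p i : Fin n} (hB : B p) (hpi : p ≠ i) : ev B (W E p i) = 0 := by
  unfold W
  rw [map_sum]
  exact Finset.sum_eq_zero fun l hl => ev_wt_zero hB hpi (by simpa using hl)

lemma ev_S {p i : Fin n} (hpi : p ≠ i) : ev (fun _ => True) (S E p i) = 0 := by
  unfold S
  have hf : (shortest E p i).Finite := (treks_fin p i).subset fun l hl => hl.1
  rw [finsum_mem_eq_finite_toFinset_sum _ hf, map_sum]
  exact Finset.sum_eq_zero fun l hl => ev_wt_zero trivial hpi (hf.mem_toFinset.1 hl).1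

/-- the variable `σ_ij` -/
noncomputable def sg (i j : Fin n) : MvPolynomial (Idx n) ℂ := X ⟨(min i j, max i j), min_le_max⟩

lemma hom_W (i j : Fin n) : hom E (treks E) (sg i j) = W E i j := by
  have h : ∀ a b, ∑ᶠ l ∈ treks E a b, wt E l = W E a b := fun a b =>
    finsum_mem_eq_finite_toFinset_sum _ _
  simp only [hom, sg, aeval_X, h]
  rcases le_total i j with h | h
  · simp [h]
  · simp [h, W_symm i j]

lemma hom_S (i j : Fin n) : hom E (shortest E) (sg i j) = S E i j := by
  simp only [hom, sg, aeval_X]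
  rcases le_total i j with h | h
  · simp [h, S]
  · rw [S_symm]; simp [h, S]

lemma X_eq_sg (s : Idx n) : X s = sg s.1.1 s.1.2 := by
  unfold sg
  congr 1
  ext <;> simp [s.2]

/-- substitution `λ_qj ↦ δ_qp` -/
noncomputable def rho (p j : Fin n) : Tgt n →ₐ[ℂ] Tgt n :=
  aeval (Sum.elim (fun v => X (Sum.inl v)) fun e =>
    if e.2 = j then (if e.1 = p then 1 else 0) else X (Sum.inr e))

lemma rho_fix (hE : ∀ a b, E a b → a < b) {p j k m : Fin n} (hk : k < j) (hm : m < j) :
    rho p j (W E k m) = W E k m := by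
  unfold W
  rw [map_sum]
  refine Finset.sum_congr rfl fun l hl => ?_
  unfold wt rho
  simp only [map_mul, map_prod, aeval_X, Sum.elim_inl, Sum.elim_inr]
  congr 1
  refine Finset.prod_congr rfl fun e he => if_neg fun h => ?_
  have h1 : OnPath E l e.1 e.2 := by simpa using he
  have h2 : e.2 ∈ l := h1.2.elim (fun h => h.subset (by simp)) (fun h => h.subset (by simp))
  exact (max_lt hk hm).not_ge (h ▸ le_max_of_mem hE l k m (by simpa using hl) _ h2)

lemma rho_W (hE : ∀ a b, E a b → a < b) {p j i : Fin n} (hi : i < j) (hp : E p j) :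
    rho p j (W E i j) = W E i p := by
  rw [W_rec hE hi, map_sum, Finset.sum_eq_single p]
  · rw [map_mul, rho_fix hE hi (hE _ _ hp)]; simp [rho]
  · intro q _ hq; rw [map_mul]; simp [rho, hq]
  · simp [hp]

lemma span_coeff {A τ : Type} [CommRing A] [Algebra ℂ A] (θ : A →ₐ[ℂ] MvPolynomial τ ℂ)
    (G : Submonoid A) {D : A} (hD : D ∈ Algebra.adjoin ℂ (G : Set A)) (x : A) (μ : τ →₀ ℕ)
    (h : coeff μ (θ (D * x)) ≠ 0) : ∃ m ∈ G, coeff μ (θ (m * x)) ≠ 0 := by
  by_contra hc
  push Not at hc
  apply h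
  clear h
  rw [← Subalgebra.mem_toSubmodule, Algebra.adjoin_eq_span, Submonoid.closure_eq] at hD
  induction hD using Submodule.span_induction with
  | mem m hm => exact hc m hm
  | zero => simp
  | add a b _ _ ha hb => rw [add_mul, map_add, coeff_add, ha, hb, add_zero]
  | smul c a _ ha => rw [smul_mul_assoc, map_smul, coeff_smul, ha, smul_zero]

lemma det_mem {A P : Type} [CommRing A] [Algebra ℂ A] [Fintype P] [DecidableEq P]
    (K : Subalgebra ℂ A) (M : Matrix P P A) (h : ∀ a b, M a b ∈ K) : M.det ∈ K := by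
  rw [Matrix.det_apply']
  exact K.sum_mem fun σ _ => K.mul_mem (intCast_mem K _) (K.prod_mem fun i _ => h _ _)

lemma toric_rel (hE : ∀ a b, E a b → a < b) (hT : IsToric (RingHom.ker (hom E (treks E))))
    {i j : Fin n} (hij : i < j) :
    W E i j = 0 ∨ ∃ p, E p j ∧ W E i j * X (Sum.inl p) = W E i p * W E p j := by
  obtain ⟨τ, f, hf, hI⟩ := hT
  set θ : MvPolynomial (Idx n) ℂ →ₐ[ℂ] MvPolynomial τ ℂ := aeval f with hθ
  set φ := hom E (treks E) with hφ
  have hk : ∀ F, φ F = 0 ↔ θ F = 0 := fun F => by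
    rw [← RingHom.mem_ker, hI, RingHom.mem_ker]
  let G : Submonoid (MvPolynomial (Idx n) ℂ) :=
    { carrier := {m | (θ m = 0 ∨ ∃ d, θ m = monomial d 1) ∧ ∀ p, rho p j (φ m) = φ m}
      one_mem' := ⟨Or.inr ⟨0, by simp⟩, fun p => by simp⟩
      mul_mem' := by
        rintro a b ⟨ha, ha'⟩ ⟨hb, hb'⟩
        refine ⟨?_, fun p => by simp only [map_mul, ha', hb']⟩
        rcases ha with ha | ⟨d, ha⟩
        · simp [ha]
        rcases hb with hb | ⟨d', hb⟩
        · simp [hb]
        exact Or.inr ⟨d + d', by rw [map_mul, ha, hb, monomial_mul, one_mul]⟩ }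
  have hsg : ∀ k m, θ (sg k m) = 0 ∨ ∃ d, θ (sg k m) = monomial d 1 := fun k m => by
    simpa [sg, hθ] using hf _
  have hG : ∀ k m, k < j → m < j → sg k m ∈ Algebra.adjoin ℂ (G : Set _) := fun k m hk hm =>
    Algebra.subset_adjoin ⟨hsg k m, fun p => by rw [hφ, hom_W, rho_fix hE hk hm]⟩
  have hmon : ∀ m ∈ G, ∀ a b μ, coeff μ (θ (m * sg a b)) ≠ 0 → θ (m * sg a b) = monomial μ 1 := by
    intro m hm a b μ h
    rw [map_mul] at h ⊢
    rcases hm.1 with h1 | ⟨d, h1⟩
    · simp [h1] at h
    rcases hsg a b with h2 | ⟨d', h2⟩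
    · simp [h2] at h
    rw [h1, h2, monomial_mul, one_mul] at h ⊢
    rw [coeff_monomial] at h
    split_ifs at h with h3
    · rw [h3]
    · simp at h
  let P := {p // E p j}
  let M : Matrix P P (MvPolynomial (Idx n) ℂ) := Matrix.of fun a b => sg a.1 b.1
  have hM : φ.mapMatrix M = Matrix.of fun a b : P => W E a.1 b.1 := by
    ext a b : 2; simp [M, hφ, hom_W]
  have hdet : φ M.det ≠ 0 := by
    rw [AlgHom.map_det, hM]
    exact det_ne (W E) W_self (fun i j h => ev_W trivial h) P _ Subtype.val_injective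
  have hsum : ∀ k, k < j → W E k j = ∑ q : P, W E k q * X (Sum.inr (q.1, j)) := fun k hk => by
    rw [W_rec hE hk]
    exact Finset.sum_subtype _ (by simp) fun p => W E k p * X (Sum.inr (p, j))
  let N : P → MvPolynomial (Idx n) ℂ := Matrix.vecMul (fun q : P => sg i q.1) M.adjugate
  have hN : ∀ p, N p ∈ Algebra.adjoin ℂ (G : Set _) := fun p => by
    change ∑ q : P, sg i q.1 * M.adjugate q p ∈ _
    refine Subalgebra.sum_mem _ fun q _ => Subalgebra.mul_mem _ (hG _ _ hij (hE _ _ q.2)) ?_
    rw [Matrix.adjugate_apply]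
    refine det_mem _ _ fun a b => ?_
    rw [Matrix.updateRow_apply]
    split_ifs
    · rw [Pi.single_apply]; split_ifs
      · exact one_mem _
      · exact zero_mem _
    · exact hG _ _ (hE _ _ a.2) (hE _ _ b.2)
  have hNM : ∀ q : P, ∑ p, N p * sg p.1 q.1 = M.det * sg i q.1 := fun q => by
    have : Matrix.vecMul N M = M.det • fun q : P => sg i q.1 := by
      simp only [N, Matrix.vecMul_vecMul, Matrix.adjugate_mul, Matrix.vecMul_smul,
        Matrix.vecMul_one]
    exact congrFun this q
  have hF : φ (M.det * sg i j - ∑ p, N p * sg p.1 j) = 0 := by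
    rw [map_sub, map_mul, map_sum, sub_eq_zero, hφ, hom_W, hsum i hij, Finset.mul_sum]
    have : ∀ p : P, hom E (treks E) (N p * sg p.1 j) =
        ∑ q : P, hom E (treks E) (N p * sg p.1 q.1) * X (Sum.inr (q.1, j)) := fun p => by
      simp only [map_mul, hom_W, hsum p.1 (hE _ _ p.2), Finset.mul_sum, mul_assoc]
    simp only [this]
    rw [Finset.sum_comm]
    refine Finset.sum_congr rfl fun q _ => ?_
    rw [← Finset.sum_mul, ← map_sum, hNM, map_mul, hom_W, mul_assoc]
  by_cases h0 : W E i j = 0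
  · exact Or.inl h0
  right
  have h1 : θ (M.det * sg i j) ≠ 0 := by
    rw [Ne, ← hk, map_mul, hφ, hom_W]
    exact mul_ne_zero hdet h0
  obtain ⟨μ, hμ⟩ := ne_zero_iff.1 h1
  obtain ⟨m, hm, hm'⟩ := span_coeff θ G (det_mem _ M fun a b =>
    hG _ _ (hE _ _ a.2) (hE _ _ b.2)) _ μ hμ
  rw [hk, map_sub, sub_eq_zero] at hF
  rw [hF, map_sum, coeff_sum] at hμ
  obtain ⟨p, -, hp⟩ := Finset.exists_ne_zero_of_sum_ne_zero hμ
  obtain ⟨m', hm2, hm2'⟩ := span_coeff θ G (hN p) _ μ hp
  have h2 : φ (m * sg i j - m' * sg p.1 j) = 0 := by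
    rw [hk, map_sub, hmon m hm _ _ _ hm', hmon m' hm2 _ _ _ hm2', sub_self]
  have h3 : φ m ≠ 0 := by
    rw [Ne, hk]; intro h; simp [h] at hm'
  rw [map_sub, sub_eq_zero, map_mul, map_mul, hφ, hom_W, hom_W, ← hφ] at h2
  have h4 := congrArg (rho p.1 j) h2
  rw [map_mul, map_mul, hm.2, hm2.2, rho_W hE hij p.2, rho_W hE (hE _ _ p.2) p.2, W_self] at h4
  refine ⟨p.1, p.2, mul_left_cancel₀ h3 ?_⟩
  linear_combination X (Sum.inl p.1) * h2 - W E p.1 j * h4

lemma wt_mon (l : List (Fin n)) : ∃ d, wt E l = monomial d 1 := by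
  let G : Submonoid (Tgt n) :=
    { carrier := {m | ∃ d, m = monomial d 1}
      one_mem' := ⟨0, by simp⟩
      mul_mem' := by
        rintro a b ⟨d, rfl⟩ ⟨d', rfl⟩
        exact ⟨d + d', by rw [monomial_mul, one_mul]⟩ }
  exact G.mul_mem (G.prod_mem fun _ _ => ⟨_, rfl⟩) (G.prod_mem fun _ _ => ⟨_, rfl⟩)

lemma ker_le {φ ψ : MvPolynomial (Idx n) ℂ →ₐ[ℂ] Tgt n} (α : Tgt n →ₐ[ℂ] FractionRing (Tgt n))
    (h : ∀ i j, α (ψ (sg i j)) = algebraMap _ _ (φ (sg i j))) :
    RingHom.ker ψ ≤ RingHom.ker φ := by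
  intro F hF
  have : α.comp ψ = (IsScalarTower.toAlgHom ℂ _ _).comp φ :=
    algHom_ext fun s => by rw [X_eq_sg]; exact h _ _
  have h2 := DFunLike.congr_fun this F
  rw [RingHom.mem_ker] at hF ⊢
  simp only [AlgHom.comp_apply, hF, map_zero, IsScalarTower.coe_toAlgHom'] at h2
  exact IsFractionRing.injective _ (FractionRing (Tgt n)) (by rw [← h2, map_zero])

end

theorem result (n : ℕ) (E : Fin n → Fin n → Prop) (hE : ∀ a b, E a b → a < b) :
    IsToric (RingHom.ker (hom E (treks E))) ↔
      (∀ i j, i < j → (treks E i j).Nonempty → ∃! l, l ∈ shortest E i j) ∧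
        RingHom.ker (hom E (treks E)) = RingHom.ker (hom E (shortest E)) := by
  constructor
  · intro hT
    have hR : ∀ i j, i < j → treks E j i = ∅ ∨ ∃ p, E p j ∧ (∀ l ∈ treks E j i, p ∈ l) ∧
        W E i j * X (Sum.inl p) = W E i p * W E p j := by
      intro i j hij
      rcases toric_rel hE hT hij with h | ⟨p, hp, h⟩
      · left
        rw [W_symm] at h
        refine Set.eq_empty_of_forall_notMem fun l hl => ?_
        simpa using ev_W_zero (B := fun _ => False) (by rw [h, map_zero]) hl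
      · refine Or.inr ⟨p, hp, fun l hl => ?_, h⟩
        by_cases hpi : p = i
        · exact hpi ▸ List.mem_of_getLast? hl.2.1
        have h1 := congrArg (ev (· = p)) h
        rw [map_mul, map_mul, W_symm i p, ev_W (B := (· = p)) rfl hpi, W_symm, zero_mul] at h1
        have h2 : ev (· = p) (X (Sum.inl p) : Tgt n) = 1 := by simp [ev]
        rw [h2, mul_one] at h1
        simpa using ev_W_zero h1 hl
    have hS0 : ∀ i j, treks E j i = ∅ → S E i j = 0 ∧ W E i j = 0 := fun i j h => by
      rw [S_symm, W_symm]; simp [S, W, shortest, h]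
    have hSe : ∀ p j, E p j → S E p j = X (Sum.inl p) * X (Sum.inr (p, j)) := fun p j hp => by
      rw [S_via hE (hE _ _ hp) hp fun l hl => List.mem_of_getLast? hl.2.1, S_self]
    have ha : ∀ p, algebraMap (Tgt n) (FractionRing (Tgt n)) (X (Sum.inl p)) ≠ 0 := fun p => by
      simp
    refine ⟨fun i j _ hne => ?_, le_antisymm ?_ ?_⟩
    · have : ∀ i j, (shortest E j i).Subsingleton := by
        refine sym_ind _ (fun i j h => ?_) (fun i => by simp [sh_self]) fun i j hij ih => ?_
        · rw [sh_symm]; exact h.image _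
        · rcases hR i j hij with h | ⟨p, hp, h, -⟩
          · simp [shortest, h]
          · rw [sh_via hE hij hp h]; exact (ih _ _ hij (hE _ _ hp)).image _
      obtain ⟨l, hl⟩ := sh_nonempty hne
      exact ⟨l, hl, fun l' h' => this _ _ h' hl⟩
    · have hb : ∀ j, ∃ b : {p // E p j} → FractionRing (Tgt n), ∀ p : {p // E p j},
          ∑ q : {p // E p j}, algebraMap _ _ (S E p.1 q.1) * b q = algebraMap _ _ (S E p.1 j) := by
        intro j
        have h1 := det_ne (S E) S_self (fun i j h => ev_S h) {p // E p j} _ Subtype.val_injective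
        have h2 : IsUnit ((algebraMap (Tgt n) (FractionRing (Tgt n))).mapMatrix
            (Matrix.of fun a b : {p // E p j} => S E a.1 b.1)) := by
          rw [Matrix.isUnit_iff_isUnit_det, ← RingHom.map_det, isUnit_iff_ne_zero]
          simpa using h1
        obtain ⟨b, hb⟩ := Matrix.mulVec_surjective_iff_isUnit.2 h2
          fun p => algebraMap _ _ (S E p.1 j)
        exact ⟨b, fun p => congrFun hb p⟩
      choose b hb using hb
      let β : Tgt n →ₐ[ℂ] FractionRing (Tgt n) := aeval (Sum.elim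
        (fun v => algebraMap (Tgt n) _ (X (Sum.inl v))) fun e =>
          if h : E e.1 e.2 then b e.2 ⟨e.1, h⟩ else 0)
      refine ker_le β ?_
      simp only [hom_W, hom_S]
      refine sym_ind _ (fun i j h => by rwa [W_symm, S_symm])
        (fun i => by simp [W_self, S_self, β]) fun i j hij ih => ?_
      rcases hR i j hij with h | ⟨p, hp, h, h'⟩
      · simp [hS0 _ _ h]
      have h1 : β (W E p j) = algebraMap _ _ (S E p j) := by
        rw [W_rec hE (hE _ _ hp), Finset.sum_subtype (p := fun p => E p j) _ (by simp), map_sum,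
          ← hb j ⟨p, hp⟩]
        refine Finset.sum_congr rfl fun q _ => ?_
        rw [map_mul, ih _ _ (hE _ _ hp) (hE _ _ q.2)]
        simp [β, q.2]
      have h2 := congrArg β h'
      rw [map_mul, map_mul, h1, ih _ _ hij (hE _ _ hp), hSe _ _ hp] at h2
      refine mul_right_cancel₀ (ha p) ?_
      have h3 : β (X (Sum.inl p)) = algebraMap (Tgt n) _ (X (Sum.inl p)) := by simp [β]
      rw [h3] at h2
      rw [h2, S_via hE hij hp h]
      simp only [map_mul]; ring
    · let α : Tgt n →ₐ[ℂ] FractionRing (Tgt n) := aeval (Sum.elim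
        (fun v => algebraMap (Tgt n) _ (X (Sum.inl v))) fun e =>
          algebraMap _ _ (W E e.1 e.2) / algebraMap (Tgt n) _ (X (Sum.inl e.1)))
      refine ker_le α ?_
      simp only [hom_W, hom_S]
      refine sym_ind _ (fun i j h => by rwa [W_symm, S_symm])
        (fun i => by simp [W_self, S_self, α]) fun i j hij ih => ?_
      rcases hR i j hij with h | ⟨p, hp, h, h'⟩
      · simp [hS0 _ _ h]
      rw [S_via hE hij hp h, map_mul, ih _ _ hij (hE _ _ hp)]
      have h2 := congrArg (algebraMap (Tgt n) (FractionRing (Tgt n))) h'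
      simp only [α, aeval_X, Sum.elim_inr]
      rw [← mul_div_assoc, ← map_mul, ← h2, map_mul, mul_div_cancel_right₀ _ (ha p)]
  · rintro ⟨h1, h2⟩
    refine ⟨_, fun s => ∑ᶠ l ∈ shortest E s.1.1 s.1.2, wt E l, fun s => ?_, h2⟩
    rcases (shortest E s.1.1 s.1.2).eq_empty_or_nonempty with h | ⟨l, hl⟩
    · simp [h]
    right
    have : shortest E s.1.1 s.1.2 = {l} := by
      rcases s.2.eq_or_lt with h | h
      · rw [← h, sh_self] at hl ⊢; rw [hl]
      · exact Set.eq_singleton_iff_unique_mem.2 ⟨hl, fun l' h' =>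
          (h1 _ _ h ⟨l, hl.1⟩).unique h' hl⟩
    simp only [this, finsum_mem_singleton]
    exact wt_mon l

end Pool.Agent.Results.MP_3f84da_ag.Toric
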